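import Pool.Agent.H659.Final
import Pool.Agent.H659.Tools
import Pool.Agent.H659.Approx
import Pool.Agent.H659.J_abs
import Pool.Agent.H659.J_bk
import Pool.Agent.H659.J_bon
import Pool.Agent.H659.J_cell
import Pool.Agent.H659.J_comb
import Pool.Agent.H659.J_dd
import Pool.Agent.H659.J_der
import Pool.Agent.H659.J_det
import Pool.Agent.H659.J_exp
import Pool.Agent.H659.J_few
import Pool.Agent.H659.J_inf
import Pool.Agent.H659.J_int
import Pool.Agent.H659.J_last
import Pool.Agent.H659.J_lastdet
import Pool.Agent.H659.J_lastpr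
import Pool.Agent.H659.J_loc
import Pool.Agent.H659.J_long
import Pool.Agent.H659.J_lp
import Pool.Agent.H659.J_men
import Pool.Agent.H659.J_pc
import Pool.Agent.H659.J_qb
import Pool.Agent.H659.J_shift
import Pool.Agent.H659.J_trf
import Pool.Agent.H659.J_two
import Pool.Agent.H659.J_xx

set_option autoImplicit false

open MeasureTheory

namespace Pool.Agent.Results.MP_5300c3_pr.SharpSlope

/-- For every `ε > 0` there are `η > 0` and `d₀` such that for all `d ≥ d₀` the percolation function
of `ℤ^d` increases with slope at least `(4 - ε) d` between any two points of the interval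
`[p_c, p_c + η / d]`. -/
theorem result :
    ∀ ε : ℝ, 0 < ε → ∃ η : ℝ, 0 < η ∧ ∃ d₀ : ℕ, ∀ d : ℕ, d₀ ≤ d →
      ∀ θ : ℝ → ℝ,
        (∀ p : ℝ, θ p =
          ((Measure.infinitePi
              (fun _ : (Fin d → ℤ) × Fin d => (volume : Measure unitInterval)))
            {ω : (Fin d → ℤ) × Fin d → unitInterval |
              Set.Infinite {x : Fin d → ℤ |
                (SimpleGraph.fromRel (fun a b : Fin d → ℤ =>
                  ∃ i : Fin d, b = a + (Pi.single i (1 : ℤ) : Fin d → ℤ) ∧
                    ((ω (a, i) : ℝ) ≤ p))).Reachable 0 x}}).toReal) →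
        ∀ p₁ p₂ : ℝ, sSup {p : ℝ | θ p = 0} ≤ p₁ → p₁ ≤ p₂ →
          p₂ ≤ sSup {p : ℝ | θ p = 0} + η / d →
          (4 - ε) * d * (p₂ - p₁) ≤ θ p₂ - θ p₁ := by
  intro ε hε
  have hlp : H659.S_lp := H659.t_lp H659.t_bk H659.t_fmdj H659.t_edge H659.t_har
  have hbon : H659.S_bon := H659.t_bon H659.t_meas H659.t_fmrt H659.t_rtiff
  have hrho : H659.S_rho := H659.t_rho hbon
  have hphi : H659.S_phi := H659.t_phi hrho
  have hxx : H659.S_xx := H659.t_xx H659.t_bk H659.t_fmdj H659.t_edge H659.t_fmrt H659.t_meas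
  have hcomb : H659.S_comb :=
    H659.t_comb H659.t_bk H659.t_fmdj H659.t_edge H659.t_fmrt hlp H659.t_det hxx hphi
  have htwo : H659.S_two := H659.t_two H659.t_bk H659.t_fmrt H659.t_rtiff H659.t_br
  have hdd : H659.S_dd :=
    H659.t_dd H659.t_bk H659.t_fmdj H659.t_edge hlp H659.t_long_split.2 H659.t_meas
  have hloc : H659.S_loc := H659.t_loc hbon hcomb htwo hdd hlp H659.t_qb
  have hinf : H659.S_inf := H659.t_inf H659.t_meas H659.t_measNf H659.t_fmrt H659.t_fmdj
    H659.t_men H659.t_long_split.1 hlp H659.t_qb hloc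
  have hlastpr : H659.S_lastpr :=
    H659.t_lastpr H659.t_meas H659.t_ind H659.t_measNf H659.t_edge
  have hlast : H659.S_last := H659.t_last H659.t_measNf H659.t_lastdet hlastpr
  have hder : H659.S_der := H659.t_der H659.t_meas H659.t_measNf H659.t_mono
  have hshift : H659.S_shift := H659.t_shift H659.t_measNf
  have htrf : H659.S_trf := H659.t_trf H659.t_meas H659.t_measNf
  have hexp : H659.S_exp := H659.t_exp H659.t_meas H659.t_ind
  have hcell : H659.S_cell := H659.t_cell H659.t_meas H659.t_ind hexp H659.t_few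
  have hpc : H659.S_pc := H659.t_pc H659.t_meas H659.t_measNf hshift hcell H659.t_abs
  obtain ⟨η, hη, d₀, h⟩ := H659.final hinf hlast hder H659.t_int hpc hshift htrf ε hε
  refine ⟨η, hη, d₀, fun d hd θ hθ => ?_⟩
  have hfun : θ = H659.thU d := by
    funext p
    exact hθ p
  subst hfun
  exact h d hd

end Pool.Agent.Results.MP_5300c3_pr.SharpSlope
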