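import Pool.Agent.H659.WinDef
import Pool.Agent.H659.Win
import Pool.Agent.H659.Tools
import Pool.Agent.H659.J_trf
import Pool.Agent.H659.J_W_ana
import Pool.Agent.H659.J_W_anb
import Pool.Agent.H659.J_W_char
import Pool.Agent.H659.J_W_fin
import Pool.Agent.H659.J_W_poly
import Pool.Agent.H659.J_W_psbd
import Pool.Agent.H659.J_W_shn
import Pool.Agent.H659.J_W_spr
import Pool.Agent.H659.J_W_sub
import Pool.Agent.H659.J_W_trfn
import Pool.Agent.H659.J_W_vit

set_option autoImplicit false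

open MeasureTheory Set Filter Topology

namespace Pool.Agent.Results.MP_5300c3_pr.Window

open Pool.Agent.H659.Window (theta pc mom mag)

/-- Passage through the critical point. If below `p_c` the susceptibility is asymptotic to
`1 / (a (p_c - p))` and the second moment of the cluster size with magnetic field `h` is asymptotic
to `b χ(p, h) ^ 3`, then the magnetisation has the mean-field scaling form on both sides of `p_c`,
and `θ(p)` is at most `(2a/b + o(1)) (p - p_c)` above `p_c`. -/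
theorem result (d : ℕ) (a b : ℝ) (ha : 0 < a) (hb : 0 < b) (h0 : 0 < pc d) (h1 : pc d < 1)
    (hchi : Tendsto (fun p : ℝ => (pc d - p) * mom d 1 p 0) (𝓝[<] pc d) (𝓝 (1 / a)))
    (hchi2 : Tendsto (fun q : ℝ × ℝ => mom d 2 q.1 q.2 / mom d 1 q.1 q.2 ^ 3)
      (𝓝[Iio (pc d) ×ˢ Ioi 0] (pc d, 0)) (𝓝 b)) :
    (∀ s : ℝ, Tendsto (fun h : ℝ => mag d (pc d + s * √h) h / √h) (𝓝[>] 0)
      (𝓝 ((√(a ^ 2 * s ^ 2 + 2 * b) + a * s) / b))) ∧
    ∀ ε : ℝ, 0 < ε → ∀ᶠ p in 𝓝[>] pc d, theta d p ≤ (2 * a / b + ε) * (p - pc d) :=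
  Pool.Agent.H659.t_winfin Pool.Agent.H659.t_poly Pool.Agent.H659.t_psbd Pool.Agent.H659.t_spr
    Pool.Agent.H659.t_char (Pool.Agent.H659.t_ana Pool.Agent.H659.t_psbd)
    Pool.Agent.H659.t_vit Pool.Agent.H659.t_sub Pool.Agent.H659.t_trfn Pool.Agent.H659.t_shn
    Pool.Agent.H659.t_anb (Pool.Agent.H659.t_trf Pool.Agent.H659.t_meas Pool.Agent.H659.t_measNf)
    d a b ha hb h0 h1 hchi hchi2

end Pool.Agent.Results.MP_5300c3_pr.Window
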